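import Pool.Agent.Lead.DSumAll

namespace Pool.Agent.Results.MP_d7e141_nt.Repunit

open Pool.Agent.H18.DSumA

theorem result (b n : ℕ) (hb : 2 ≤ b) (hn : 1 ≤ n) (hc : Nat.Coprime (b - 1) n)
    (hp : ∃ p, p.Prime ∧ p ∣ n ∧ ¬ p ∣ b) :
    ∃ m, m ∣ n ∧ Nat.Coprime b m ∧ (∀ d, d ∣ n → Nat.Coprime b d → d ∣ m) ∧
    (∀ k, m = ∑ j ∈ Finset.range k, b ^ j → F b n = (k - 1) * (b - 1)) := by
  obtain ⟨m, h1, h2, h3, h4, h5, h6, h7, h8, h9, h10⟩ := Pool.Agent.Lead.DSumAll.all b n hb hn hc hp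
  exact ⟨m, h1, h2, h3, h10⟩

end Pool.Agent.Results.MP_d7e141_nt.Repunit
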